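import Pool.Agent.Lib.MP_8cc25e_nt.PSq12

/-!
`Z_p(5)` and `Z_p(-49)` modulo `p^2`, for every prime `p > 7`.
-/

namespace Pool.Agent.Results.MP_8cc25e_nt.ModuloSquare

open Finset

/-- The Franel numbers `f_n`. -/
def franel (n : ℕ) : ℕ := ∑ k ∈ range (n + 1), (n.choose k) ^ 3

/-- `Z_p(m)`, the sum over `0 ≤ n ≤ p - 1` of `f_n * binom(2n, n) * m^(-n)`. -/
def Z (p : ℕ) (m : ℤ) : ℚ :=
  ∑ n ∈ range p, (franel n : ℚ) * ((2 * n).choose n : ℚ) * ((m : ℚ) ^ n)⁻¹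

/-- `S_p`, the sum over `0 ≤ k ≤ p - 1` of `binom(2k, k)^2 * binom(3k, k) * (-27)^(-k)`. -/
def S (p : ℕ) : ℚ :=
  ∑ k ∈ range p, ((2 * k).choose k : ℚ) ^ 2 * ((3 * k).choose k : ℚ) * ((-27 : ℚ) ^ k)⁻¹

/-- `a ≡ b (mod p^2)`: `(a - b) / p^2` has denominator prime to `p`. -/
def CongSq (p : ℕ) (a b : ℚ) : Prop := ¬ p ∣ ((a - b) / (p : ℚ) ^ 2).den

lemma cong_of (p : ℕ) (hp : p.Prime) (x y : ℚ) (a b c d : ℤ) (hc : ¬ (p : ℤ) ∣ c)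
    (hd : ¬ (p : ℤ) ∣ d) (hx : x * c = a) (hy : y * d = b)
    (h : (p : ℤ) ^ 2 ∣ a * d - b * c) : CongSq p x y := by
  have hpz : Prime (p : ℤ) := Nat.prime_iff_prime_int.mp hp
  have hp0 : (p : ℚ) ≠ 0 := by exact_mod_cast hp.ne_zero
  have hc0 : (c : ℚ) ≠ 0 := by
    intro h0
    have : c = 0 := by exact_mod_cast h0
    exact hc (this ▸ dvd_zero _)
  have hd0 : (d : ℚ) ≠ 0 := by
    intro h0
    have : d = 0 := by exact_mod_cast h0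
    exact hd (this ▸ dvd_zero _)
  obtain ⟨k, hk⟩ := h
  have hk' : (a : ℚ) * d - b * c = (p : ℚ) ^ 2 * k := by exact_mod_cast hk
  have e : (x - y) / (p : ℚ) ^ 2 = ((k : ℤ) : ℚ) / ((c * d : ℤ) : ℚ) := by
    rw [← hx, ← hy] at hk'
    push_cast
    rw [div_eq_div_iff (pow_ne_zero 2 hp0) (mul_ne_zero hc0 hd0)]
    linear_combination hk'
  unfold CongSq
  rw [e]
  intro hdvd
  have h1 := Rat.den_dvd k (c * d)
  rw [Rat.divInt_eq_div] at h1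
  have h2 : (p : ℤ) ∣ c * d := (Int.natCast_dvd_natCast.mpr hdvd).trans h1
  rcases hpz.dvd_or_dvd h2 with h3 | h3
  · exact hc h3
  · exact hd h3

lemma Z_mul (p : ℕ) (m : ℤ) (hm : m ≠ 0) :
    Z p m * ((m ^ (p - 1) : ℤ) : ℚ) = ((MP8cc25e.NN p m : ℤ) : ℚ) := by
  unfold Z MP8cc25e.NN MP8cc25e.gg MP8cc25e.franel franel
  push_cast
  rw [sum_mul]
  apply sum_congr rfl
  intro n hn
  rw [mem_range] at hn
  have hm' : (m : ℚ) ≠ 0 := by exact_mod_cast hm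
  have e : (m : ℚ) ^ (p - 1) = (m : ℚ) ^ (p - 1 - n) * (m : ℚ) ^ n := by
    rw [← pow_add]
    congr 1
    omega
  rw [e]
  field_simp

lemma S_mul (p : ℕ) : S p * (((-27) ^ (p - 1) : ℤ) : ℚ) = ((MP8cc25e.NS p : ℤ) : ℚ) := by
  unfold S MP8cc25e.NS MP8cc25e.sg
  push_cast
  rw [sum_mul]
  apply sum_congr rfl
  intro n hn
  rw [mem_range] at hn
  have h27 : ((-27 : ℚ)) ^ n ≠ 0 := pow_ne_zero _ (by norm_num)
  have e : (-27 : ℚ) ^ (p - 1) = (-27) ^ (p - 1 - n) * (-27) ^ n := by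
    rw [← pow_add]
    congr 1
    omega
  rw [e]
  field_simp

lemma not_dvd_pow (p : ℕ) (hp : p.Prime) (m : ℤ) (q : ℕ) (hq : m.natAbs ∣ q ^ 3 * 7 ^ 2)
    (hq0 : 0 < q) (hq7 : q < 8) (h7 : 7 < p) (n : ℕ) : ¬ (p : ℤ) ∣ m ^ n := by
  have hpz : Prime (p : ℤ) := Nat.prime_iff_prime_int.mp hp
  intro h
  have h1 : p ∣ m.natAbs := Int.natCast_dvd.mp (hpz.dvd_of_dvd_pow h)
  rcases hp.dvd_mul.mp (h1.trans hq) with h2 | h2
  · exact absurd (Nat.le_of_dvd hq0 (hp.dvd_of_dvd_pow h2)) (by omega)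
  · exact absurd (Nat.le_of_dvd (by norm_num) (hp.dvd_of_dvd_pow h2)) (by omega)

theorem result (p : ℕ) (hp : p.Prime) (h7 : 7 < p) :
    CongSq p (Z p 5) (Z p (-49)) ∧ CongSq p (Z p 5) (S p) ∧ CongSq p (Z p (-49)) (S p) ∧
    (p % 30 = 7 ∨ p % 30 = 11 ∨ p % 30 = 13 ∨ p % 30 = 29 →
      CongSq p (Z p 5) 0 ∧ CongSq p (Z p (-49)) 0) := by
  have hpz : Prime (p : ℤ) := Nat.prime_iff_prime_int.mp hp
  have n5 : ¬ (p : ℤ) ∣ 5 ^ (p - 1) :=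
    not_dvd_pow p hp 5 5 (by norm_num) (by norm_num) (by norm_num) h7 _
  have n49 : ¬ (p : ℤ) ∣ (-49) ^ (p - 1) :=
    not_dvd_pow p hp (-49) 7 (by norm_num) (by norm_num) (by norm_num) h7 _
  have n27 : ¬ (p : ℤ) ∣ (-27) ^ (p - 1) :=
    not_dvd_pow p hp (-27) 3 (by norm_num) (by norm_num) (by norm_num) h7 _
  have n1 : ¬ (p : ℤ) ∣ 1 := hpz.not_dvd_one
  obtain ⟨a, b⟩ := MP8cc25e.all_primes p hp h7
  refine ⟨?_, ?_, ?_, ?_⟩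
  · refine cong_of p hp _ _ _ _ _ _ n5 n49 (Z_mul p 5 (by norm_num)) (Z_mul p (-49) (by norm_num)) ?_
    have h27 : IsCoprime ((p : ℤ) ^ 2) ((-27) ^ (p - 1)) :=
      IsCoprime.pow_left ((Prime.coprime_iff_not_dvd hpz).mpr n27)
    apply h27.dvd_of_dvd_mul_right
    have h1 := dvd_sub (Dvd.dvd.mul_right a ((-49) ^ (p - 1))) (Dvd.dvd.mul_right b (5 ^ (p - 1)))
    have e : (MP8cc25e.NN p 5 * (-49) ^ (p - 1) - MP8cc25e.NN p (-49) * 5 ^ (p - 1)) * (-27) ^ (p - 1)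
        = (MP8cc25e.NN p 5 * (-27) ^ (p - 1) - MP8cc25e.NS p * 5 ^ (p - 1)) * (-49) ^ (p - 1)
        - (MP8cc25e.NN p (-49) * (-27) ^ (p - 1) - MP8cc25e.NS p * (-49) ^ (p - 1)) * 5 ^ (p - 1) := by
      ring
    rw [e]
    exact h1
  · exact cong_of p hp _ _ _ _ _ _ n5 n27 (Z_mul p 5 (by norm_num)) (S_mul p) a
  · exact cong_of p hp _ _ _ _ _ _ n49 n27 (Z_mul p (-49) (by norm_num)) (S_mul p) b
  · intro h
    obtain ⟨c, d⟩ := MP8cc25e.inert_half p hp h7 h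
    constructor
    · refine cong_of p hp _ 0 _ 0 _ 1 n5 n1 (Z_mul p 5 (by norm_num)) (by norm_num) ?_
      simpa using c
    · refine cong_of p hp _ 0 _ 0 _ 1 n49 n1 (Z_mul p (-49) (by norm_num)) (by norm_num) ?_
      simpa using d

end Pool.Agent.Results.MP_8cc25e_nt.ModuloSquare
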